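import Pool.Agent.Q120.NL.Stm
import Pool.Agent.Q151.GB.Ltwo
import Pool.Agent.Q275.NC.HY

/-!
# Hausdorff-Young for distributions (job NL-HD, helper275)
-/

set_option autoImplicit false

namespace Pool.Agent.Q275.NL.HD

open MeasureTheory Set Complex FourierTransform Filter Topology
open scoped ENNReal NNReal ContDiff
open Pool.Agent.Q275.NC.HY (inner_le K K_meas)

theorem inv_flip {f g : ℝ → ℂ} (hf : Integrable f) (hg : Integrable g) :
    ∫ x, g x * 𝓕⁻ f x = ∫ x, 𝓕⁻ g x * f x := by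
  have hgn : Integrable (fun x => g (-x)) := hg.comp_neg
  have h1 := Pool.Agent.Q151.GB.fourier_flip hf hgn
  rw [Real.fourierInv_eq_fourier_comp_neg g, h1]
  have h2 := integral_neg_eq_self (fun x => g (-x) * 𝓕 f x) volume
  rw [← h2]
  refine integral_congr_ae (Eventually.of_forall fun x => ?_)
  show g x * 𝓕⁻ f x = g (- -x) * 𝓕 f (-x)
  rw [neg_neg, Real.fourierInv_eq_fourier_neg]

theorem inv_cont {f : ℝ → ℂ} (hf : Integrable f) : Continuous (𝓕⁻ f) := by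
  have hcont : Continuous (𝓕 f) :=
    VectorFourier.fourierIntegral_continuous Real.continuous_fourierChar continuous_inner hf
  have : 𝓕⁻ f = fun x => 𝓕 f (-x) := funext fun x => Real.fourierInv_eq_fourier_neg f x
  rw [this]
  exact hcont.comp continuous_neg

theorem inv_bd (f : ℝ → ℂ) (x : ℝ) : ‖𝓕⁻ f x‖ ≤ ∫ t, ‖f t‖ := by
  rw [Real.fourierInv_eq']
  refine (norm_integral_le_integral_norm _).trans (le_of_eq ?_)
  refine integral_congr_ae (Eventually.of_forall fun t => ?_)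
  show ‖cexp _ • f t‖ = ‖f t‖
  rw [norm_smul, Complex.norm_exp_ofReal_mul_I, one_mul]

/-- splitting at the height `s` -/
theorem split {H u : ℝ → ℂ} (hHm : Measurable H) (hH : MemLp H 2) (hu : LocallyIntegrable u)
    (h : ∀ g : ℝ → ℝ, ContDiff ℝ ∞ g → HasCompactSupport g →
      ∫ x, ((g x : ℝ) : ℂ) * u x = ∫ ξ, (𝓕⁻ (fun x => ((g x : ℝ) : ℂ))) ξ * H ξ)
    {s : ℝ} (hs : 0 < s) :
    ∃ w : ℝ → ℂ, (∀ x, ‖w x‖ ≤ ∫ t in {t | s < ‖H t‖}, ‖H t‖) ∧
      Integrable (fun x => ‖u x - w x‖ ^ 2) ∧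
      ∫ x, ‖u x - w x‖ ^ 2 = ∫ t in {t | ‖H t‖ ≤ s}, ‖H t‖ ^ 2 := by
  have hi2 : Integrable (fun t => ‖H t‖ ^ 2) := hH.integrable_norm_pow (by norm_num)
  have hS : MeasurableSet {t | s < ‖H t‖} := measurableSet_lt measurable_const hHm.norm
  have hS' : MeasurableSet {t | ‖H t‖ ≤ s} := measurableSet_le hHm.norm measurable_const
  obtain ⟨H1, hH1⟩ : ∃ H1 : ℝ → ℂ, H1 = {t | s < ‖H t‖}.indicator H := ⟨_, rfl⟩
  obtain ⟨H2, hH2⟩ : ∃ H2 : ℝ → ℂ, H2 = {t | ‖H t‖ ≤ s}.indicator H := ⟨_, rfl⟩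
  have a1 : ∀ t, s < ‖H t‖ → H1 t = H t ∧ H2 t = 0 := fun t ht => by
    rw [hH1, hH2]
    exact ⟨indicator_of_mem (show t ∈ {t | s < ‖H t‖} from ht) H,
      indicator_of_notMem (show t ∉ {t | ‖H t‖ ≤ s} from not_le.2 ht) H⟩
  have a2 : ∀ t, ¬ s < ‖H t‖ → H1 t = 0 ∧ H2 t = H t := fun t ht => by
    rw [hH1, hH2]
    exact ⟨indicator_of_notMem (show t ∉ {t | s < ‖H t‖} from ht) H,
      indicator_of_mem (show t ∈ {t | ‖H t‖ ≤ s} from not_lt.1 ht) H⟩
  have hsum : ∀ t, H t = H1 t + H2 t := by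
    intro t
    by_cases ht : s < ‖H t‖
    · rw [(a1 t ht).1, (a1 t ht).2, add_zero]
    · rw [(a2 t ht).1, (a2 t ht).2, zero_add]
  have hH1i : Integrable H1 := by
    refine (hi2.div_const s).mono' (by rw [hH1]; exact (hHm.indicator hS).aestronglyMeasurable)
      (Eventually.of_forall fun t => ?_)
    by_cases ht : s < ‖H t‖
    · rw [(a1 t ht).1, le_div_iff₀ hs, sq]
      exact mul_le_mul_of_nonneg_left ht.le (norm_nonneg _)
    · rw [(a2 t ht).1, norm_zero]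
      positivity
  have hH2m : MemLp H2 2 := by
    rw [hH2]
    exact hH.indicator hS'
  have hwc := inv_cont hH1i
  have hyp : ∀ g : ℝ → ℝ, ContDiff ℝ ∞ g → HasCompactSupport g →
      ∫ x, ((g x : ℝ) : ℂ) * (u x - 𝓕⁻ H1 x) =
        ∫ ξ, (𝓕⁻ (fun x => ((g x : ℝ) : ℂ))) ξ * H2 ξ := by
    intro g hg hgs
    have hgc : Continuous (fun x => ((g x : ℝ) : ℂ)) :=
      Complex.continuous_ofReal.comp hg.continuous
    have hgcs : HasCompactSupport (fun x => ((g x : ℝ) : ℂ)) :=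
      hgs.comp_left (g := fun x : ℝ => (x : ℂ)) Complex.ofReal_zero
    have hgi : Integrable (fun x => ((g x : ℝ) : ℂ)) := hgc.integrable_of_hasCompactSupport hgcs
    have hg2 : MemLp (fun x => ((g x : ℝ) : ℂ)) 2 := hgc.memLp_of_hasCompactSupport hgcs
    have i1 : Integrable (fun x => ((g x : ℝ) : ℂ) * u x) := by
      have := hu.integrable_smul_left_of_hasCompactSupport hg.continuous hgs
      refine this.congr (Eventually.of_forall fun x => ?_)
      show g x • u x = ((g x : ℝ) : ℂ) * u x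
      rw [Complex.real_smul]
    have i2 : Integrable (fun x => ((g x : ℝ) : ℂ) * 𝓕⁻ H1 x) :=
      (hgc.mul hwc).integrable_of_hasCompactSupport hgcs.mul_right
    have hFc := inv_cont hgi
    have i3 : Integrable (fun ξ => (𝓕⁻ (fun x => ((g x : ℝ) : ℂ))) ξ * H1 ξ) := by
      refine (hH1i.norm.const_mul (∫ t, ‖((g t : ℝ) : ℂ)‖)).mono'
        (hFc.aestronglyMeasurable.mul hH1i.aestronglyMeasurable) (Eventually.of_forall fun t => ?_)
      rw [norm_mul]
      exact mul_le_mul_of_nonneg_right (inv_bd _ t) (norm_nonneg _)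
    have hF2 : MemLp (𝓕⁻ (fun x => ((g x : ℝ) : ℂ))) 2 := by
      rw [Real.fourierInv_eq_fourier_comp_neg]
      refine (Pool.Agent.Helper390.Covario.plancherel (f := fun x : ℝ => ((g (-x) : ℝ) : ℂ))
        hgi.comp_neg ?_).1
      have hc2 : Continuous (fun x : ℝ => ((g (-x) : ℝ) : ℂ)) :=
        Complex.continuous_ofReal.comp (hg.continuous.comp continuous_neg)
      refine hc2.memLp_of_hasCompactSupport ?_
      exact hgcs.comp_homeomorph (Homeomorph.neg ℝ)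
    have i4 : Integrable (fun ξ => (𝓕⁻ (fun x => ((g x : ℝ) : ℂ))) ξ * H2 ξ) :=
      hF2.integrable_mul hH2m
    have e1 : ∫ x, ((g x : ℝ) : ℂ) * (u x - 𝓕⁻ H1 x) =
        (∫ x, ((g x : ℝ) : ℂ) * u x) - ∫ x, ((g x : ℝ) : ℂ) * 𝓕⁻ H1 x := by
      rw [← integral_sub i1 i2]
      exact integral_congr_ae (Eventually.of_forall fun x => mul_sub _ _ _)
    have e2 : ∫ ξ, (𝓕⁻ (fun x => ((g x : ℝ) : ℂ))) ξ * H ξ =
        (∫ ξ, (𝓕⁻ (fun x => ((g x : ℝ) : ℂ))) ξ * H1 ξ) +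
          ∫ ξ, (𝓕⁻ (fun x => ((g x : ℝ) : ℂ))) ξ * H2 ξ := by
      rw [← integral_add i3 i4]
      refine integral_congr_ae (Eventually.of_forall fun ξ => ?_)
      show (𝓕⁻ (fun x => ((g x : ℝ) : ℂ))) ξ * H ξ = _
      rw [hsum ξ, mul_add]
    rw [e1, h g hg hgs, inv_flip hH1i hgi, e2]
    ring
  have hul : LocallyIntegrable (fun x => u x - 𝓕⁻ H1 x) := hu.sub hwc.locallyIntegrable
  obtain ⟨r1, r2⟩ := Pool.Agent.Q151.GB.l2_id hH2m hul hyp
  refine ⟨𝓕⁻ H1, ?_, r1.integrable_norm_pow (by norm_num), ?_⟩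
  · intro x
    refine (inv_bd H1 x).trans (le_of_eq ?_)
    rw [← integral_indicator hS, hH1]
    refine integral_congr_ae (Eventually.of_forall fun t => ?_)
    show ‖_‖ = _
    rw [norm_indicator_eq_indicator_norm]
  · rw [r2, ← integral_indicator hS', hH2]
    refine integral_congr_ae (Eventually.of_forall fun t => ?_)
    show ‖{t | ‖H t‖ ≤ s}.indicator H t‖ ^ 2 = {t | ‖H t‖ ≤ s}.indicator (fun t => ‖H t‖ ^ 2) t
    by_cases ht : t ∈ {t | ‖H t‖ ≤ s}
    · rw [indicator_of_mem ht, indicator_of_mem ht]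
    · rw [indicator_of_notMem ht, indicator_of_notMem ht, norm_zero]
      norm_num

/-- the measure of the level sets -/
theorem level {H u : ℝ → ℂ} (hHm : Measurable H) (hH : MemLp H 2) (hu : LocallyIntegrable u)
    (h : ∀ g : ℝ → ℝ, ContDiff ℝ ∞ g → HasCompactSupport g →
      ∫ x, ((g x : ℝ) : ℂ) * u x = ∫ ξ, (𝓕⁻ (fun x => ((g x : ℝ) : ℂ))) ξ * H ξ)
    {p Q : ℝ} (hp : 2 < p) (hQi : Integrable (fun t => ‖H t‖ ^ (p / (p - 1))))
    (hQ : ∫ t, ‖H t‖ ^ (p / (p - 1)) = Q) (hQ0 : 0 < Q) {l : ℝ} (hl : 0 < l) :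
    volume {x | l < ‖u x‖} ≤ ENNReal.ofReal (4 / l ^ 2) *
      ∫⁻ t, {t | ‖H t‖ ≤ (2 * Q / l) ^ (p - 1)}.indicator
        (fun t => ENNReal.ofReal (‖H t‖ ^ 2)) t := by
  have hp1 : 0 < p - 1 := by linarith
  set s : ℝ := (2 * Q / l) ^ (p - 1) with hs
  have hs0 : 0 < s := Real.rpow_pos_of_pos (by positivity) _
  obtain ⟨w, hwb, hwi, hwe⟩ := split hHm hH hu h hs0
  have hGi : Integrable (fun t => ‖H t‖ ^ 2) := hH.integrable_norm_pow (by norm_num)
  have hS : MeasurableSet {t | s < ‖H t‖} := measurableSet_lt measurable_const hHm.norm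
  have hS' : MeasurableSet {t | ‖H t‖ ≤ s} := measurableSet_le hHm.norm measurable_const
  have hb : ∫ t in {t | s < ‖H t‖}, ‖H t‖ ≤ l / 2 := by
    have e1 : s ^ (1 - p / (p - 1)) * Q = l / 2 := by
      rw [hs, ← Real.rpow_mul (by positivity)]
      have : (p - 1) * (1 - p / (p - 1)) = -1 := by
        field_simp
        ring
      rw [this, Real.rpow_neg_one]
      field_simp
    calc ∫ t in {t | s < ‖H t‖}, ‖H t‖
        ≤ ∫ t in {t | s < ‖H t‖}, s ^ (1 - p / (p - 1)) * ‖H t‖ ^ (p / (p - 1)) := by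
          refine setIntegral_mono_on ?_ (hQi.integrableOn.const_mul _) hS fun t ht => ?_
          · refine ((hGi.integrableOn.div_const s)).mono' hHm.norm.aestronglyMeasurable ?_
            filter_upwards [ae_restrict_mem hS] with t ht
            rw [norm_norm, le_div_iff₀ hs0, sq]
            exact mul_le_mul_of_nonneg_left (le_of_lt ht) (norm_nonneg _)
          · have ht' : s < ‖H t‖ := ht
            have h0 : 0 < ‖H t‖ := hs0.trans ht'
            have h3 : ‖H t‖ ^ (1 - p / (p - 1)) ≤ s ^ (1 - p / (p - 1)) := by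
              refine Real.rpow_le_rpow_of_nonpos hs0 ht'.le ?_
              rw [sub_nonpos, le_div_iff₀ hp1]
              linarith
            calc ‖H t‖ = ‖H t‖ ^ (1 - p / (p - 1)) * ‖H t‖ ^ (p / (p - 1)) := by
                  rw [← Real.rpow_add h0, sub_add_cancel, Real.rpow_one]
              _ ≤ _ := mul_le_mul_of_nonneg_right h3 (Real.rpow_nonneg h0.le _)
      _ = s ^ (1 - p / (p - 1)) * ∫ t in {t | s < ‖H t‖}, ‖H t‖ ^ (p / (p - 1)) :=
          integral_const_mul _ _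
      _ ≤ s ^ (1 - p / (p - 1)) * Q := by
          refine mul_le_mul_of_nonneg_left ?_ (Real.rpow_nonneg hs0.le _)
          rw [← hQ]
          exact setIntegral_le_integral hQi (Eventually.of_forall fun t =>
            Real.rpow_nonneg (norm_nonneg _) _)
      _ = l / 2 := e1
  have hsub : {x | l < ‖u x‖} ⊆ {x | ENNReal.ofReal ((l / 2) ^ 2) ≤
      ENNReal.ofReal (‖u x - w x‖ ^ 2)} := by
    intro x hx
    have hx' : l < ‖u x‖ := hx
    have h3 : ‖u x‖ ≤ ‖u x - w x‖ + ‖w x‖ := by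
      have := norm_add_le (u x - w x) (w x)
      rwa [sub_add_cancel] at this
    have h4 := (hwb x).trans hb
    refine ENNReal.ofReal_le_ofReal (pow_le_pow_left₀ (by positivity) (by linarith) 2)
  have hmeas : AEMeasurable (fun x => ENNReal.ofReal (‖u x - w x‖ ^ 2)) volume :=
    hwi.aestronglyMeasurable.aemeasurable.ennreal_ofReal
  have hmk := meas_ge_le_lintegral_div hmeas (ε := ENNReal.ofReal ((l / 2) ^ 2))
    (by rw [Ne, ENNReal.ofReal_eq_zero, not_le]; positivity) ENNReal.ofReal_ne_top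
  refine (measure_mono hsub).trans (hmk.trans ?_)
  have h5 : ∫⁻ x, ENNReal.ofReal (‖u x - w x‖ ^ 2) ≤
      ∫⁻ t, {t | ‖H t‖ ≤ s}.indicator (fun t => ENNReal.ofReal (‖H t‖ ^ 2)) t := by
    rw [← ofReal_integral_eq_lintegral_ofReal hwi (Eventually.of_forall fun x => by positivity),
      lintegral_indicator hS', ← ofReal_integral_eq_lintegral_ofReal hGi.integrableOn
        (Eventually.of_forall fun x => by positivity)]
    exact ENNReal.ofReal_le_ofReal hwe.le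
  have h6 : ENNReal.ofReal (4 / l ^ 2) = (ENNReal.ofReal ((l / 2) ^ 2))⁻¹ := by
    rw [← ENNReal.ofReal_inv_of_pos (by positivity)]
    congr 1
    field_simp
    norm_num
  rw [h6, ENNReal.div_eq_inv_mul]
  gcongr

theorem step {H u : ℝ → ℂ} (hHm : Measurable H) (hH : MemLp H 2) (hu : LocallyIntegrable u)
    (h : ∀ g : ℝ → ℝ, ContDiff ℝ ∞ g → HasCompactSupport g →
      ∫ x, ((g x : ℝ) : ℂ) * u x = ∫ ξ, (𝓕⁻ (fun x => ((g x : ℝ) : ℂ))) ξ * H ξ)
    {p Q : ℝ} (hp : 2 < p) (hQi : Integrable (fun t => ‖H t‖ ^ (p / (p - 1))))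
    (hQ : ∫ t, ‖H t‖ ^ (p / (p - 1)) = Q) (hQ0 : 0 < Q) {l : ℝ} (hl0 : 0 < l) :
    volume {x | l < ‖u x‖} * ENNReal.ofReal (l ^ (p - 1)) ≤
      ∫⁻ t, K p Q (fun t => ‖H t‖) l t := by
  have h3 := level hHm hH hu h hp hQi hQ hQ0 hl0
  have m3 : Measurable ({t | ‖H t‖ ≤ (2 * Q / l) ^ (p - 1)}.indicator
      (fun t => ENNReal.ofReal (‖H t‖ ^ 2))) := by
    refine Measurable.indicator (hHm.norm.pow_const 2).ennreal_ofReal ?_
    exact measurableSet_le hHm.norm measurable_const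
  have e6 : ∀ t, K p Q (fun t => ‖H t‖) l t = ENNReal.ofReal (4 * l ^ (p - 3)) *
      {t | ‖H t‖ ≤ (2 * Q / l) ^ (p - 1)}.indicator
        (fun t => ENNReal.ofReal (‖H t‖ ^ 2)) t := by
    intro t
    rw [K]
    by_cases h : ‖H t‖ ≤ (2 * Q / l) ^ (p - 1)
    · rw [if_pos h, indicator_of_mem (show t ∈ {t | ‖H t‖ ≤ (2 * Q / l) ^ (p - 1)} from h)]
    · rw [if_neg h,
        indicator_of_notMem (show t ∉ {t | ‖H t‖ ≤ (2 * Q / l) ^ (p - 1)} from h)]
  rw [lintegral_congr e6, lintegral_const_mul _ m3]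
  have e7 : l ^ (p - 1) = l ^ (p - 3) * l ^ 2 := by
    rw [← Real.rpow_natCast l 2, ← Real.rpow_add hl0]
    congr 1
    push_cast
    ring
  have e8 : ENNReal.ofReal (4 / l ^ 2) * ENNReal.ofReal (l ^ (p - 1)) =
      ENNReal.ofReal (4 * l ^ (p - 3)) := by
    rw [← ENNReal.ofReal_mul (by positivity), e7]
    congr 1
    field_simp
  calc volume {x | l < ‖u x‖} * ENNReal.ofReal (l ^ (p - 1))
      ≤ (ENNReal.ofReal (4 / l ^ 2) * ∫⁻ t, {t | ‖H t‖ ≤ (2 * Q / l) ^ (p - 1)}.indicator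
        (fun t => ENNReal.ofReal (‖H t‖ ^ 2)) t) * ENNReal.ofReal (l ^ (p - 1)) :=
        mul_le_mul' h3 le_rfl
    _ = (ENNReal.ofReal (4 / l ^ 2) * ENNReal.ofReal (l ^ (p - 1))) *
        ∫⁻ t, {t | ‖H t‖ ≤ (2 * Q / l) ^ (p - 1)}.indicator
          (fun t => ENNReal.ofReal (‖H t‖ ^ 2)) t := by ring
    _ = _ := by rw [e8]

theorem key {H u : ℝ → ℂ} (hHm : Measurable H) (hH : MemLp H 2) (hu : LocallyIntegrable u)
    (h : ∀ g : ℝ → ℝ, ContDiff ℝ ∞ g → HasCompactSupport g →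
      ∫ x, ((g x : ℝ) : ℂ) * u x = ∫ ξ, (𝓕⁻ (fun x => ((g x : ℝ) : ℂ))) ξ * H ξ)
    {p Q : ℝ} (hp : 2 < p) (hQi : Integrable (fun t => ‖H t‖ ^ (p / (p - 1))))
    (hQ : ∫ t, ‖H t‖ ^ (p / (p - 1)) = Q) (hQ0 : 0 < Q) :
    ∫⁻ x, ENNReal.ofReal (‖u x‖ ^ p) ≤
      ENNReal.ofReal (4 * p * (2 ^ (p - 2) / (p - 2)) * Q ^ (p - 1)) := by
  have hp1 : 0 < p - 1 := by linarith
  have hp2 : 0 < p - 2 := by linarith
  have hum : AEMeasurable (fun x => ‖u x‖) volume := hu.aestronglyMeasurable.norm.aemeasurable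
  rw [lintegral_rpow_eq_lintegral_meas_lt_mul volume
    (Eventually.of_forall fun x => norm_nonneg (u x)) hum (by linarith)]
  have hKm : Measurable (Function.uncurry (K p Q fun t => ‖H t‖)) := K_meas p Q hHm.norm
  have hstep : ∫⁻ l in Ioi (0 : ℝ), volume {x | l < ‖u x‖} * ENNReal.ofReal (l ^ (p - 1)) ≤
      ∫⁻ l in Ioi (0 : ℝ), ∫⁻ t, K p Q (fun t => ‖H t‖) l t :=
    setLIntegral_mono_ae' measurableSet_Ioi (Eventually.of_forall fun l hl =>
      step hHm hH hu h hp hQi hQ hQ0 hl)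
  have hswap : ∫⁻ l in Ioi (0 : ℝ), ∫⁻ t, K p Q (fun t => ‖H t‖) l t =
      ∫⁻ t, ∫⁻ l in Ioi (0 : ℝ), K p Q (fun t => ‖H t‖) l t :=
    lintegral_lintegral_swap hKm.aemeasurable
  have hinner : ∀ t, ∫⁻ l in Ioi (0 : ℝ), K p Q (fun t => ‖H t‖) l t ≤
      ENNReal.ofReal (4 * (2 * Q) ^ (p - 2) / (p - 2)) *
        ENNReal.ofReal (‖H t‖ ^ (p / (p - 1))) := fun t => inner_le hp hQ0 (norm_nonneg _)
  have hfin : ∫⁻ t, ENNReal.ofReal (‖H t‖ ^ (p / (p - 1))) = ENNReal.ofReal Q := by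
    rw [← hQ, ofReal_integral_eq_lintegral_ofReal hQi
      (Eventually.of_forall fun t => Real.rpow_nonneg (norm_nonneg _) _)]
  calc ENNReal.ofReal p * ∫⁻ l in Ioi (0 : ℝ), volume {x | l < ‖u x‖} *
        ENNReal.ofReal (l ^ (p - 1))
      ≤ ENNReal.ofReal p * ∫⁻ t, ENNReal.ofReal (4 * (2 * Q) ^ (p - 2) / (p - 2)) *
        ENNReal.ofReal (‖H t‖ ^ (p / (p - 1))) := by
        refine mul_le_mul' le_rfl (hstep.trans ?_)
        rw [hswap]
        exact lintegral_mono hinner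
    _ = ENNReal.ofReal p * (ENNReal.ofReal (4 * (2 * Q) ^ (p - 2) / (p - 2)) *
        ENNReal.ofReal Q) := by
        rw [lintegral_const_mul' _ _ ENNReal.ofReal_ne_top, hfin]
    _ = _ := by
        have e10 : Q ^ (p - 1) = Q ^ (p - 2) * Q := by
          rw [← Real.rpow_add_one hQ0.ne']
          congr 1
          ring
        rw [← ENNReal.ofReal_mul (by positivity), ← ENNReal.ofReal_mul (by positivity), e10,
          Real.mul_rpow (by norm_num) hQ0.le]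
        congr 1
        ring

theorem main {H u : ℝ → ℂ} (hHm : Measurable H) (hH : MemLp H 2) (hu : LocallyIntegrable u)
    (h : ∀ g : ℝ → ℝ, ContDiff ℝ ∞ g → HasCompactSupport g →
      ∫ x, ((g x : ℝ) : ℂ) * u x = ∫ ξ, (𝓕⁻ (fun x => ((g x : ℝ) : ℂ))) ξ * H ξ)
    {p Q : ℝ} (hp : 2 < p) (hQi : Integrable (fun t => ‖H t‖ ^ (p / (p - 1))))
    (hQ : ∫ t, ‖H t‖ ^ (p / (p - 1)) = Q) :
    Integrable (fun x => ‖u x‖ ^ p) ∧
      ∫ x, ‖u x‖ ^ p ≤ 4 * p * (2 ^ (p - 2) / (p - 2)) * Q ^ (p - 1) := by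
  have hp1 : 0 < p - 1 := by linarith
  have hp2 : 0 < p - 2 := by linarith
  have hQn : 0 ≤ Q := by
    rw [← hQ]
    exact integral_nonneg fun t => Real.rpow_nonneg (norm_nonneg _) _
  have hnn : ∀ x, 0 ≤ ‖u x‖ ^ p := fun x => Real.rpow_nonneg (norm_nonneg _) _
  have hum : AEStronglyMeasurable (fun x => ‖u x‖ ^ p) volume :=
    (hu.aestronglyMeasurable.norm.aemeasurable.pow_const p).aestronglyMeasurable
  rcases hQn.eq_or_lt with hQ0 | hQ0
  · have e1 : (fun t => ‖H t‖ ^ (p / (p - 1))) =ᵐ[volume] 0 :=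
      (integral_eq_zero_iff_of_nonneg (fun t => Real.rpow_nonneg (norm_nonneg _) _) hQi).1
        (hQ.trans hQ0.symm)
    have e2 : ∫ t, ‖H t‖ ^ 2 = 0 := by
      refine integral_eq_zero_of_ae ?_
      filter_upwards [e1] with t ht
      have h3 : ‖H t‖ ^ (p / (p - 1)) = 0 := ht
      have h4 : ‖H t‖ = 0 := by
        rwa [Real.rpow_eq_zero (norm_nonneg _) (by positivity)] at h3
      show ‖H t‖ ^ 2 = 0
      rw [h4]
      norm_num
    obtain ⟨r1, r2⟩ := Pool.Agent.Q151.GB.l2_id hH hu h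
    rw [e2] at r2
    have e4 : (fun x => ‖u x‖ ^ 2) =ᵐ[volume] 0 :=
      (integral_eq_zero_iff_of_nonneg (fun x => by positivity)
        (r1.integrable_norm_pow (by norm_num))).1 r2
    have e5 : (fun x => ‖u x‖ ^ p) =ᵐ[volume] 0 := by
      filter_upwards [e4] with x hx
      have h3 : ‖u x‖ ^ 2 = 0 := hx
      show ‖u x‖ ^ p = 0
      rw [pow_eq_zero_iff (by norm_num)] at h3
      rw [h3, Real.zero_rpow (by linarith)]
    refine ⟨(integrable_zero ℝ ℝ volume).congr e5.symm, ?_⟩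
    rw [integral_eq_zero_of_ae e5]
    exact mul_nonneg (by positivity) (Real.rpow_nonneg hQn _)
  · have hk := key hHm hH hu h hp hQi hQ hQ0
    constructor
    · refine ⟨hum, ?_⟩
      rw [hasFiniteIntegral_iff_ofReal (Eventually.of_forall hnn)]
      exact hk.trans_lt ENNReal.ofReal_lt_top
    · rw [integral_eq_lintegral_of_nonneg_ae (Eventually.of_forall hnn) hum]
      exact ENNReal.toReal_le_of_le_ofReal
        (mul_nonneg (by positivity) (Real.rpow_nonneg hQn _)) hk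

theorem t_HD : Pool.Agent.Q120.NL.J_HD := by
  intro p hp
  have hp1 : 0 < p - 1 := by linarith
  have hp2 : 0 < p - 2 := by linarith
  refine ⟨4 * p * (2 ^ (p - 2) / (p - 2)), by positivity, ?_⟩
  intro H u hH hQi hu h
  obtain ⟨H', hm, hae⟩ := hH.1
  have hae' : H' =ᵐ[volume] H := hae.symm
  have hH' : MemLp H' 2 := (memLp_congr_ae hae').2 hH
  have hq : (fun t => ‖H' t‖ ^ (p / (p - 1))) =ᵐ[volume] fun t => ‖H t‖ ^ (p / (p - 1)) := by
    filter_upwards [hae'] with t ht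
    rw [ht]
  have hh : ∀ g : ℝ → ℝ, ContDiff ℝ ∞ g → HasCompactSupport g →
      ∫ x, ((g x : ℝ) : ℂ) * u x = ∫ ξ, (𝓕⁻ (fun x => ((g x : ℝ) : ℂ))) ξ * H' ξ := by
    intro g hg hgs
    rw [h g hg hgs]
    refine integral_congr_ae ?_
    filter_upwards [hae'] with t ht
    rw [ht]
  have hQe : ∫ t, ‖H' t‖ ^ (p / (p - 1)) = ∫ t, ‖H t‖ ^ (p / (p - 1)) := integral_congr_ae hq
  exact main hm.measurable hH' hu hh hp (hQi.congr hq.symm) hQe

end Pool.Agent.Q275.NL.HD
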