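import Pool.Agent.Q120.NL.Stm
import Pool.Agent.Q202.BD.Asm

/-!
# The critical weight, upper bound (job NL-CU, helper275)
-/

set_option autoImplicit false

namespace Pool.Agent.Q275.NL.CU

open Complex MeasureTheory Filter Topology Set
open Pool.Agent.Q286.BD (cl)
open Pool.Agent.Q286.GB
open Pool.Agent.Q120.NL
open Pool.Agent.Q202.BD.Asm (kap kap_int)

theorem cl_eq (t : ℝ) : (((1 / 2 : ℝ) : ℂ) + t * I) = cl t := by
  unfold cl
  push_cast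
  ring

theorem norm_low {σ : ℝ} (hσ : 1 / 4 ≤ σ) (t : ℝ) : (1 + |t|) / 8 ≤ ‖(σ : ℂ) + t * I‖ := by
  have h1 := Complex.abs_re_le_norm ((σ : ℂ) + t * I)
  have h2 := Complex.abs_im_le_norm ((σ : ℂ) + t * I)
  have e1 : ((σ : ℂ) + t * I).re = σ := by simp
  have e2 : ((σ : ℂ) + t * I).im = t := by simp
  rw [e1] at h1
  rw [e2] at h2
  have h3 := le_abs_self σ
  have h4 := abs_nonneg t
  linarith

theorem FL_le {O : LFn} {N : ℕ} {a : ℕ → ℂ} {σ t M : ℝ} (hσ : 1 / 4 ≤ σ)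
    (h : ‖1 - O.L ((σ : ℂ) + t * I) *
      ∑ n ∈ Finset.Icc 1 N, a n * (n : ℂ) ^ (-((σ : ℂ) + t * I))‖ ≤ M) :
    ‖FL O N a ((σ : ℂ) + t * I)‖ ≤ 8 * M / (1 + |t|) := by
  have h0 : 0 < 1 + |t| := by positivity
  have h1 := norm_low hσ t
  unfold FL
  rw [norm_div, div_le_div_iff₀ (by linarith) h0]
  have h2 : 1 + |t| ≤ 8 * ‖(σ : ℂ) + t * I‖ := by linarith
  have hM : 0 ≤ M := (norm_nonneg _).trans h
  calc _ ≤ M * (8 * ‖(σ : ℂ) + t * I‖) := mul_le_mul h h2 h0.le hM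
    _ = _ := by ring

theorem FL_cont (O : LFn) (N : ℕ) (a : ℕ → ℂ) {σ : ℝ} (hσ : 0 < σ) :
    Continuous fun t : ℝ => FL O N a ((σ : ℂ) + t * I) := by
  unfold FL
  have hs : Continuous fun t : ℝ => (σ : ℂ) + t * I := by fun_prop
  have hne : ∀ t : ℝ, (σ : ℂ) + t * I ≠ 0 := by
    intro t h
    have h1 := congrArg Complex.re h
    have e1 : ((σ : ℂ) + t * I).re = σ := by simp
    rw [e1, Complex.zero_re] at h1
    linarith
  refine Continuous.div ?_ hs hne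
  refine continuous_const.sub ((O.entire.continuous.comp hs).mul ?_)
  refine continuous_finsetSum _ fun n hn => continuous_const.mul ?_
  have hn1 : n ≠ 0 := by
    have := (Finset.mem_Icc.1 hn).1
    omega
  exact Continuous.const_cpow hs.neg (Or.inl (by exact_mod_cast hn1))

theorem kap_nonneg (p : ℝ) : 0 ≤ kap p := integral_nonneg fun x =>
  Real.rpow_nonneg (by positivity) _

/-- the integral over the line, general form -/
theorem line (hZG : J_ZG) {Z : Set ℝ} (hZ : ∃ K0 : ℝ, ∀ T : ℝ, (Z ∩ Icc T (T + 1)).Finite ∧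
    ((Z ∩ Icc T (T + 1)).ncard : ℝ) ≤ K0 * Real.log (|T| + 2)) {q κ η : ℝ} (hq : 1 < q)
    (hκ : 0 < κ) (hη : 0 < η) (h1 : 1 + η ≤ q * (1 - κ)) :
    ∃ C : ℝ, 0 < C ∧ ∀ (L T M1 M2 : ℝ) (f : ℝ → ℝ), 1 / 2 ≤ L → 0 < M1 → 0 ≤ M2 → Measurable f →
      (∀ t, 0 ≤ f t) →
      (∀ t d : ℝ, |t| ≤ T → 0 < d → d ≤ 1 → (∀ g ∈ Z, d ≤ |g - t|) →
        f t ≤ M1 * (1 + |t|) ^ (κ - 1) / (1 + L * d)) →
      (∀ t, T < |t| → f t ^ q ≤ M2 * (1 + |t|) ^ (-(1 + η))) →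
      Integrable (fun t => f t ^ q) ∧ ∫ t, f t ^ q ≤ C * (M1 ^ q / L + M2) := by
  obtain ⟨C0, hC0, H0⟩ := hZG Z hZ q κ hq hκ (by linarith)
  have hk := kap_nonneg (1 + η)
  refine ⟨C0 + kap (1 + η), by linarith, ?_⟩
  intro L T M1 M2 f hL hM1 hM2 hfm hf0 hb ht
  have hLp : 0 < L := by linarith
  obtain ⟨S, hSd⟩ : ∃ S : Set ℝ, S = {t | |t| ≤ T} := ⟨_, rfl⟩
  have hmem : ∀ t, t ∈ S ↔ |t| ≤ T := fun t => by rw [hSd]; exact Iff.rfl
  have hS : MeasurableSet S := by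
    rw [hSd]
    exact measurableSet_le (by fun_prop) measurable_const
  obtain ⟨H, hH⟩ : ∃ H : ℝ → ℝ, H = S.indicator (fun t => f t / M1) := ⟨_, rfl⟩
  have hH1 : ∀ t, |t| ≤ T → H t = f t / M1 := fun t h => by
    rw [hH, indicator_of_mem ((hmem t).2 h)]
  have hH2 : ∀ t, ¬ |t| ≤ T → H t = 0 := fun t h => by
    rw [hH, indicator_of_notMem (fun h2 => h ((hmem t).1 h2))]
  have hHm : Measurable H := by
    rw [hH]
    exact (hfm.div_const M1).indicator hS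
  have hH0 : ∀ t, 0 ≤ H t := by
    intro t
    by_cases h : |t| ≤ T
    · rw [hH1 t h]
      exact div_nonneg (hf0 t) hM1.le
    · rw [hH2 t h]
  obtain ⟨i1, e1⟩ := H0 L hL H hHm hH0 (by
    intro t d hd hd1 hg
    have h3 : 0 < 1 + L * d := by positivity
    by_cases h : |t| ≤ T
    · rw [hH1 t h, div_le_iff₀ hM1]
      refine (hb t d h hd hd1 hg).trans (le_of_eq ?_)
      ring
    · rw [hH2 t h]
      exact div_nonneg (Real.rpow_nonneg (by positivity) _) h3.le)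
  have hc1 : ∀ t, |t| ≤ T → t ∉ Sᶜ := fun t h h2 => h2 ((hmem t).2 h)
  have hc2 : ∀ t, ¬ |t| ≤ T → t ∈ Sᶜ := fun t h h2 => h ((hmem t).1 h2)
  have hpt : ∀ t, f t ^ q = M1 ^ q * H t ^ q + Sᶜ.indicator (fun t => f t ^ q) t := by
    intro t
    by_cases h : |t| ≤ T
    · rw [indicator_of_notMem (hc1 t h), add_zero, hH1 t h,
        ← Real.mul_rpow hM1.le (div_nonneg (hf0 t) hM1.le), mul_div_cancel₀ _ hM1.ne']
    · rw [indicator_of_mem (hc2 t h), hH2 t h,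
        Real.zero_rpow (by linarith), mul_zero, zero_add]
  have hb2 : ∀ t, Sᶜ.indicator (fun t => f t ^ q) t ≤ M2 * (1 + |t|) ^ (-(1 + η)) := by
    intro t
    by_cases h : |t| ≤ T
    · rw [indicator_of_notMem (hc1 t h)]
      exact mul_nonneg hM2 (Real.rpow_nonneg (by positivity) _)
    · rw [indicator_of_mem (hc2 t h)]
      exact ht t (not_le.1 h)
  have hn2 : ∀ t, 0 ≤ Sᶜ.indicator (fun t => f t ^ q) t :=
    indicator_nonneg fun t _ => Real.rpow_nonneg (hf0 t) _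
  have hk2 := (kap_int (p := 1 + η) (by linarith)).const_mul M2
  have i2 : Integrable (Sᶜ.indicator (fun t => f t ^ q)) := by
    refine hk2.mono' ((hfm.pow_const q).indicator hS.compl).aestronglyMeasurable
      (Eventually.of_forall fun t => ?_)
    rw [Real.norm_eq_abs, abs_of_nonneg (hn2 t)]
    exact hb2 t
  have i3 : Integrable (fun t => M1 ^ q * H t ^ q + Sᶜ.indicator (fun t => f t ^ q) t) :=
    (i1.const_mul _).add i2
  have e2 : ∫ t, Sᶜ.indicator (fun t => f t ^ q) t ≤ M2 * kap (1 + η) := by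
    unfold kap
    rw [← integral_const_mul]
    exact integral_mono i2 hk2 hb2
  have hfun : (fun t => f t ^ q) =
      fun t => M1 ^ q * H t ^ q + Sᶜ.indicator (fun t => f t ^ q) t := funext hpt
  constructor
  · rw [hfun]
    exact i3
  · have e3 : ∫ t, f t ^ q = M1 ^ q * (∫ t, H t ^ q) + ∫ t, Sᶜ.indicator (fun t => f t ^ q) t := by
      rw [integral_congr_ae (Eventually.of_forall hpt), integral_add (i1.const_mul _) i2,
        integral_const_mul]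
    rw [e3]
    have hMq : 0 < M1 ^ q := Real.rpow_pos_of_pos hM1 _
    have h5 : M1 ^ q * (∫ t, H t ^ q) ≤ C0 * (M1 ^ q / L) := by
      calc M1 ^ q * (∫ t, H t ^ q) ≤ M1 ^ q * (C0 / L) := mul_le_mul_of_nonneg_left e1 hMq.le
        _ = _ := by ring
    have h6 : 0 ≤ M1 ^ q / L := by positivity
    nlinarith [mul_nonneg hk h6, mul_nonneg hC0.le hM2]

/-- the parameter `m` -/
noncomputable def m0 (q : ℝ) : ℝ := 16 + 12 * q / (q - 1) + 4 * (2 * q + 1) / (q - 1)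

theorem m0_facts {q m : ℝ} (hq : 1 < q) (hm : m0 q ≤ m) :
    16 ≤ m ∧ 0 < 6 / m ∧ 1 + 2 * ((q - 1) / 4) ≤ q * (1 - 6 / m) ∧
      2 * q + 1 ≤ (m - 6) * ((q - 1) / 4) := by
  have hq1 : 0 < q - 1 := by linarith
  have h1 : 0 < 12 * q / (q - 1) := by positivity
  have h2 : 0 < 4 * (2 * q + 1) / (q - 1) := by positivity
  unfold m0 at hm
  have h16 : 16 ≤ m := by linarith
  have hm0 : 0 < m := by linarith
  have h3 : 12 * q ≤ m * (q - 1) := by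
    rw [← div_le_iff₀ hq1]
    linarith
  have h4 : 4 * (2 * q + 1) ≤ (m - 6) * (q - 1) := by
    rw [← div_le_iff₀ hq1]
    linarith
  refine ⟨h16, by positivity, ?_, by linarith⟩
  have h5 : q * (6 / m) ≤ (q - 1) / 2 := by
    rw [mul_div_assoc', div_le_div_iff₀ hm0 two_pos]
    linarith
  linarith

theorem lineN (hZG : J_ZG) (hcnt : S_CNT) (O : Obj) (hO : RH O.toLFn) {q m C : ℝ} (hq : 1 < q)
    (hm : m0 q ≤ m) (hC : 0 < C) :
    ∃ C' : ℝ, 0 < C' ∧ ∀ (N : ℕ) (a : ℕ → ℂ), 2 ≤ N →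
      (∀ t d : ℝ, |t| ≤ (N : ℝ) ^ (m - 6) → 0 < d → d ≤ 1 →
        (∀ g : ℝ, O.L (cl g) = 0 → d ≤ |g - t|) →
        ‖1 - O.L (cl t) * ∑ n ∈ Finset.Icc 1 N, a n * (n : ℂ) ^ (-cl t)‖ ≤
          C * (1 + |t|) ^ (6 / m) / (1 + Real.log N * d)) →
      (∀ t : ℝ, ‖1 - O.L (cl t) * ∑ n ∈ Finset.Icc 1 N, a n * (n : ℂ) ^ (-cl t)‖ ≤
        C * (N : ℝ) ^ (2 : ℝ) * (1 + |t|) ^ (6 / m)) →
      Integrable (fun t : ℝ => ‖FL O.toLFn N a (((1 / 2 : ℝ) : ℂ) + t * I)‖ ^ q) ∧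
      ∫ t : ℝ, ‖FL O.toLFn N a (((1 / 2 : ℝ) : ℂ) + t * I)‖ ^ q ≤ C' / Real.log N := by
  obtain ⟨h16, hκ, hk1, hk2⟩ := m0_facts hq hm
  obtain ⟨κ, hκd⟩ : ∃ κ : ℝ, κ = 6 / m := ⟨_, rfl⟩
  obtain ⟨η, hηd⟩ : ∃ η : ℝ, η = (q - 1) / 4 := ⟨_, rfl⟩
  rw [← hκd, ← hηd] at hk1
  rw [← hκd] at hκ
  rw [← hηd] at hk2
  rw [← hκd]
  have hη : 0 < η := by rw [hηd]; linarith
  obtain ⟨C1, hC1, H1⟩ := line hZG (hcnt O hO).1 hq hκ hη (by linarith)
  have hCq : 0 < (8 * C) ^ q := Real.rpow_pos_of_pos (by positivity) _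
  refine ⟨C1 * (2 * (8 * C) ^ q), by positivity, ?_⟩
  intro N a hN hb1 hb2
  have hN1 : (2 : ℝ) ≤ N := by exact_mod_cast hN
  have hN0 : (0 : ℝ) < N := by linarith
  have hL : 1 / 2 ≤ Real.log N := by
    have h1 := Real.log_le_log two_pos hN1
    have h2 := Real.log_two_gt_d9
    linarith
  have hLp : 0 < Real.log N := by linarith
  have hlog : Real.log N ≤ N := by
    have := Real.log_le_sub_one_of_pos hN0
    linarith
  have hsplit : ∀ t : ℝ, 0 < 1 + |t| → ∀ x : ℝ, (1 + |t|) ^ κ / (1 + |t|) = (1 + |t|) ^ (κ - 1) := by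
    intro t ht _
    rw [Real.rpow_sub_one ht.ne']
  obtain ⟨r1, r2⟩ := H1 (Real.log N) ((N : ℝ) ^ (m - 6)) (8 * C) ((8 * C) ^ q / N)
    (fun t => ‖FL O.toLFn N a (((1 / 2 : ℝ) : ℂ) + t * I)‖) hL (by positivity) (by positivity)
    (FL_cont O.toLFn N a (by norm_num)).norm.measurable (fun t => norm_nonneg _) (by
      intro t d ht hd hd1 hg
      have h0 : 0 < 1 + |t| := by positivity
      have h1 := hb1 t d ht hd hd1 (fun g hg0 => hg g hg0)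
      rw [← cl_eq] at h1
      have h2 := FL_le (by norm_num) h1
      refine h2.trans (le_of_eq ?_)
      rw [← hsplit t h0 0]
      ring) (by
      intro t ht
      have h0 : 0 < 1 + |t| := by positivity
      have h1 := hb2 t
      rw [← cl_eq] at h1
      have h2 := FL_le (by norm_num) h1
      have h3 : 8 * (C * (N : ℝ) ^ (2 : ℝ) * (1 + |t|) ^ κ) / (1 + |t|) =
          8 * C * (N : ℝ) ^ (2 : ℝ) * (1 + |t|) ^ (κ - 1) := by
        rw [← hsplit t h0 0]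
        ring
      rw [h3] at h2
      obtain ⟨δ, hδ⟩ : ∃ δ : ℝ, δ = q * (1 - κ) - 1 - η := ⟨_, rfl⟩
      have hδη : η ≤ δ := by rw [hδ]; linarith
      have h4 : ((1 + |t|) ^ (κ - 1)) ^ q = (1 + |t|) ^ (-(1 + η)) * (1 + |t|) ^ (-δ) := by
        rw [← Real.rpow_mul h0.le, ← Real.rpow_add h0]
        congr 1
        rw [hδ]
        ring
      have hT1 : 1 ≤ (N : ℝ) ^ (m - 6) := Real.one_le_rpow (by linarith) (by linarith)
      have h5 : (1 + |t|) ^ (-δ) ≤ (N : ℝ) ^ (-(2 * q + 1)) := by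
        calc (1 + |t|) ^ (-δ) ≤ (1 + |t|) ^ (-η) :=
              Real.rpow_le_rpow_of_exponent_le (by linarith [abs_nonneg t]) (by linarith)
          _ ≤ ((N : ℝ) ^ (m - 6)) ^ (-η) :=
              Real.rpow_le_rpow_of_nonpos (by linarith) (by linarith) (by linarith)
          _ = (N : ℝ) ^ (-((m - 6) * η)) := by
              rw [← Real.rpow_mul hN0.le]
              congr 1
              ring
          _ ≤ (N : ℝ) ^ (-(2 * q + 1)) :=
              Real.rpow_le_rpow_of_exponent_le (by linarith) (by linarith)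
      have h6 : ((N : ℝ) ^ (2 : ℝ)) ^ q * (N : ℝ) ^ (-(2 * q + 1)) = 1 / N := by
        rw [← Real.rpow_mul hN0.le, ← Real.rpow_add hN0]
        have : 2 * q + -(2 * q + 1) = (-1 : ℝ) := by ring
        rw [this, Real.rpow_neg_one, one_div]
      have hA : 0 ≤ (1 + |t|) ^ (-(1 + η)) := Real.rpow_nonneg h0.le _
      calc ‖FL O.toLFn N a (((1 / 2 : ℝ) : ℂ) + t * I)‖ ^ q
          ≤ (8 * C * (N : ℝ) ^ (2 : ℝ) * (1 + |t|) ^ (κ - 1)) ^ q :=
            Real.rpow_le_rpow (norm_nonneg _) h2 (by linarith)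
        _ = (8 * C) ^ q * ((N : ℝ) ^ (2 : ℝ)) ^ q * ((1 + |t|) ^ (κ - 1)) ^ q := by
            rw [Real.mul_rpow (by positivity) (Real.rpow_nonneg h0.le _),
              Real.mul_rpow (by positivity) (by positivity)]
        _ = (8 * C) ^ q * ((N : ℝ) ^ (2 : ℝ)) ^ q * ((1 + |t|) ^ (-(1 + η)) *
              (1 + |t|) ^ (-δ)) := by rw [h4]
        _ ≤ (8 * C) ^ q * ((N : ℝ) ^ (2 : ℝ)) ^ q * ((1 + |t|) ^ (-(1 + η)) *
              (N : ℝ) ^ (-(2 * q + 1))) :=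
            mul_le_mul_of_nonneg_left (mul_le_mul_of_nonneg_left h5 hA) (by positivity)
        _ = (8 * C) ^ q * (((N : ℝ) ^ (2 : ℝ)) ^ q * (N : ℝ) ^ (-(2 * q + 1))) *
              (1 + |t|) ^ (-(1 + η)) := by ring
        _ = (8 * C) ^ q / N * (1 + |t|) ^ (-(1 + η)) := by rw [h6]; ring)
  refine ⟨r1, r2.trans ?_⟩
  have h7 : (8 * C) ^ q / N ≤ (8 * C) ^ q / Real.log N :=
    div_le_div_of_nonneg_left hCq.le hLp hlog
  calc C1 * ((8 * C) ^ q / Real.log N + (8 * C) ^ q / N)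
      ≤ C1 * ((8 * C) ^ q / Real.log N + (8 * C) ^ q / Real.log N) :=
        mul_le_mul_of_nonneg_left (by linarith) hC1.le
    _ = C1 * (2 * (8 * C) ^ q) / Real.log N := by ring

theorem nl_le {p σ K l : ℝ} {u : ℝ → ℂ} (hp : 1 ≤ p) (hK : 0 ≤ K) (hl : 0 < l)
    (h : ∫ y in Ioi (1 : ℝ), ‖u y‖ ^ p * y ^ (-(p * σ) - 1) ≤ K * l ^ (-(p - 1))) :
    nl p σ u ≤ K ^ (1 / p) * l ^ (-(1 - 1 / p)) := by
  unfold nl
  have hp0 : 0 < p := by linarith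
  have h0 : 0 ≤ ∫ y in Ioi (1 : ℝ), ‖u y‖ ^ p * y ^ (-(p * σ) - 1) := by
    refine setIntegral_nonneg measurableSet_Ioi fun y hy => ?_
    have : (0 : ℝ) < y := lt_trans one_pos hy
    positivity
  calc _ ≤ (K * l ^ (-(p - 1))) ^ (1 / p) := Real.rpow_le_rpow h0 h (by positivity)
    _ = _ := by
      rw [Real.mul_rpow hK (Real.rpow_nonneg hl.le _), ← Real.rpow_mul hl.le]
      congr 2
      field_simp

theorem CC_meas (O : LFn) (N : ℕ) (a : ℕ → ℂ) : Measurable (CC O N a) := by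
  have h : Measurable (fun k : ℕ => (1 : ℂ) - ∑ j ∈ Finset.Icc 1 k, cc O N a j) :=
    measurable_of_countable _
  exact h.comp Nat.measurable_floor

/-- two ranges of `z ^ p` -/
theorem zp {z l p : ℝ} (hz : 0 ≤ z) (hl : 0 < l) (hp1 : 1 ≤ p) (hp2 : p ≤ 2) :
    z ^ p ≤ z ^ (2 : ℝ) * l ^ (p - 2) + l ^ p := by
  rcases le_or_gt z l with h | h
  · have h1 : z ^ p ≤ l ^ p := Real.rpow_le_rpow hz h (by linarith)
    have h2 : 0 ≤ z ^ (2 : ℝ) * l ^ (p - 2) := by positivity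
    linarith
  · have hz0 : 0 < z := hl.trans h
    have h1 : z ^ p = z ^ (2 : ℝ) * z ^ (p - 2) := by
      rw [← Real.rpow_add hz0]
      congr 1
      ring
    have h2 : z ^ (p - 2) ≤ l ^ (p - 2) := Real.rpow_le_rpow_of_nonpos hl h.le (by linarith)
    have h3 : 0 ≤ l ^ p := by positivity
    rw [h1]
    have := mul_le_mul_of_nonneg_left h2 (Real.rpow_nonneg hz 2)
    linarith

/-- from two mean square bounds to the norm of `L^p`, `1 ≤ p ≤ 2` -/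
theorem low_p {u : ℝ → ℂ} (hu : Measurable u) {p h l C1 C2 X : ℝ} (hp1 : 1 ≤ p) (hp2 : p ≤ 2)
    (hh : 0 < h) (hl : 1 / 2 ≤ l) (hX : 1 < X) (_hC1 : 0 ≤ C1) (hC2 : 0 ≤ C2)
    (hlX : Real.log X = l)
    (i1 : IntegrableOn (fun y : ℝ => ‖u y‖ ^ (2 : ℝ) * y ^ (-2 : ℝ)) (Ioi 1))
    (e1 : ∫ y in Ioi (1 : ℝ), ‖u y‖ ^ (2 : ℝ) * y ^ (-2 : ℝ) ≤ C1 / l)
    (i2 : IntegrableOn (fun y : ℝ => ‖u y‖ ^ (2 : ℝ) * y ^ (-2 + 2 * h)) (Ioi 1))
    (e2 : ∫ y in Ioi (1 : ℝ), ‖u y‖ ^ (2 : ℝ) * y ^ (-2 + 2 * h) ≤ C2 * X ^ (4 : ℝ)) :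
    IntegrableOn (fun y : ℝ => ‖u y‖ ^ p * y ^ (-(p * (1 / 2)) - 1)) (Ioi 1) ∧
    ∫ y in Ioi (1 : ℝ), ‖u y‖ ^ p * y ^ (-(p * (1 / 2)) - 1) ≤
      (C1 + 5 / h + C2 + 1 / h) * l ^ (-(p - 1)) := by
  have hl0 : 0 < l := by linarith
  have hX0 : 0 < X := by linarith
  obtain ⟨Y, hY⟩ : ∃ Y : ℝ, Y = X ^ (5 / h) := ⟨_, rfl⟩
  have hY1 : 1 ≤ Y := by
    rw [hY]
    exact Real.one_le_rpow hX.le (by positivity)
  have hY0 : 0 < Y := by linarith
  have hlogY : Real.log Y = 5 / h * l := by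
    rw [hY, Real.log_rpow hX0, hlX]
  have hYh : Y ^ (-h) = X ^ (-5 : ℝ) := by
    rw [hY, ← Real.rpow_mul hX0.le]
    congr 1
    field_simp
  have hmg : Measurable (fun y : ℝ => ‖u y‖ ^ p * y ^ (-(p * (1 / 2)) - 1)) :=
    (hu.norm.pow_const p).mul (measurable_id.pow_const _)
  -- the substitution
  have hz : ∀ y : ℝ, 0 < y → ‖u y‖ ^ p * y ^ (-(p * (1 / 2)) - 1) =
      (‖u y‖ * y ^ (-(1 / 2) : ℝ)) ^ p * y ^ (-1 : ℝ) := by
    intro y hy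
    rw [Real.mul_rpow (norm_nonneg _) (Real.rpow_nonneg hy.le _), ← Real.rpow_mul hy.le,
      mul_assoc, ← Real.rpow_add hy]
    congr 2
    ring
  have hz2 : ∀ y : ℝ, 0 < y → (‖u y‖ * y ^ (-(1 / 2) : ℝ)) ^ (2 : ℝ) * y ^ (-1 : ℝ) =
      ‖u y‖ ^ (2 : ℝ) * y ^ (-2 : ℝ) := by
    intro y hy
    rw [Real.mul_rpow (norm_nonneg _) (Real.rpow_nonneg hy.le _), ← Real.rpow_mul hy.le,
      mul_assoc, ← Real.rpow_add hy]
    congr 2
    norm_num
  have hzn : ∀ y : ℝ, 0 < y → 0 ≤ ‖u y‖ * y ^ (-(1 / 2) : ℝ) := fun y hy => by positivity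
  -- first range
  have hb1 : ∀ y ∈ Ioc 1 Y, ‖u y‖ ^ p * y ^ (-(p * (1 / 2)) - 1) ≤
      l ^ (2 - p) * (‖u y‖ ^ (2 : ℝ) * y ^ (-2 : ℝ)) + l ^ (-p) * y ^ (-1 : ℝ) := by
    intro y hy
    have hy0 : 0 < y := lt_trans one_pos hy.1
    have h1 := zp (hzn y hy0) (l := l⁻¹) (by positivity) hp1 hp2
    rw [hz y hy0]
    have e3 : (l⁻¹) ^ (p - 2) = l ^ (2 - p) := by
      rw [Real.inv_rpow hl0.le, ← Real.rpow_neg hl0.le]
      congr 1
      ring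
    have e4 : (l⁻¹) ^ p = l ^ (-p) := by
      rw [Real.inv_rpow hl0.le, ← Real.rpow_neg hl0.le]
    rw [e3, e4] at h1
    calc (‖u y‖ * y ^ (-(1 / 2) : ℝ)) ^ p * y ^ (-1 : ℝ)
        ≤ ((‖u y‖ * y ^ (-(1 / 2) : ℝ)) ^ (2 : ℝ) * l ^ (2 - p) + l ^ (-p)) * y ^ (-1 : ℝ) :=
          mul_le_mul_of_nonneg_right h1 (Real.rpow_nonneg hy0.le _)
      _ = l ^ (2 - p) * ((‖u y‖ * y ^ (-(1 / 2) : ℝ)) ^ (2 : ℝ) * y ^ (-1 : ℝ)) +
            l ^ (-p) * y ^ (-1 : ℝ) := by ring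
      _ = _ := by rw [hz2 y hy0]
  -- second range
  have hb2 : ∀ y ∈ Ioi Y, ‖u y‖ ^ p * y ^ (-(p * (1 / 2)) - 1) ≤
      X ^ (-5 : ℝ) * (‖u y‖ ^ (2 : ℝ) * y ^ (-2 + 2 * h)) + y ^ (-1 - h) := by
    intro y hy
    have hyY : Y < y := hy
    have hy1 : 1 ≤ y := by linarith
    have hy0 : 0 < y := by linarith
    have h1 := zp (hzn y hy0) (l := y ^ (-h)) (Real.rpow_pos_of_pos hy0 _) hp1 hp2
    rw [hz y hy0]
    have e3 : (y ^ (-h)) ^ (p - 2) ≤ y ^ h := by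
      rw [← Real.rpow_mul hy0.le]
      refine Real.rpow_le_rpow_of_exponent_le hy1 ?_
      nlinarith
    have e4 : (y ^ (-h)) ^ p ≤ y ^ (-h) := by
      rw [← Real.rpow_mul hy0.le]
      refine Real.rpow_le_rpow_of_exponent_le hy1 ?_
      nlinarith
    have e5 : y ^ (-h) ≤ X ^ (-5 : ℝ) := by
      rw [← hYh]
      exact Real.rpow_le_rpow_of_nonpos hY0 hyY.le (by linarith)
    have e6 : y ^ h = y ^ (-h) * y ^ (2 * h) := by
      rw [← Real.rpow_add hy0]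
      congr 1
      ring
    have e7 : y ^ (-2 : ℝ) * y ^ (2 * h) = y ^ (-2 + 2 * h) := by
      rw [← Real.rpow_add hy0]
    have e8 : y ^ (-h) * y ^ (-1 : ℝ) = y ^ (-1 - h) := by
      rw [← Real.rpow_add hy0]
      congr 1
      ring
    have hn1 : 0 ≤ (‖u y‖ * y ^ (-(1 / 2) : ℝ)) ^ (2 : ℝ) := Real.rpow_nonneg (hzn y hy0) _
    have hn2 : 0 ≤ ‖u y‖ ^ (2 : ℝ) * y ^ (-2 + 2 * h) := by positivity
    calc (‖u y‖ * y ^ (-(1 / 2) : ℝ)) ^ p * y ^ (-1 : ℝ)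
        ≤ ((‖u y‖ * y ^ (-(1 / 2) : ℝ)) ^ (2 : ℝ) * y ^ h + y ^ (-h)) * y ^ (-1 : ℝ) := by
          refine mul_le_mul_of_nonneg_right (h1.trans ?_) (Real.rpow_nonneg hy0.le _)
          exact add_le_add (mul_le_mul_of_nonneg_left e3 hn1) e4
      _ = y ^ (-h) * (((‖u y‖ * y ^ (-(1 / 2) : ℝ)) ^ (2 : ℝ) * y ^ (-1 : ℝ)) * y ^ (2 * h)) +
            y ^ (-h) * y ^ (-1 : ℝ) := by
          rw [e6]
          ring
      _ = y ^ (-h) * (‖u y‖ ^ (2 : ℝ) * y ^ (-2 + 2 * h)) + y ^ (-1 - h) := by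
          rw [hz2 y hy0, mul_assoc, e7, e8]
      _ ≤ _ := by
          have := mul_le_mul_of_nonneg_right e5 hn2
          linarith
  have hn : ∀ y : ℝ, 0 < y → 0 ≤ ‖u y‖ ^ p * y ^ (-(p * (1 / 2)) - 1) := fun y hy => by positivity
  -- integrability
  have k1 : IntegrableOn (fun y : ℝ => y ^ (-1 : ℝ)) (Ioc 1 Y) := by
    refine (ContinuousOn.integrableOn_Icc (f := fun y : ℝ => y ^ (-1 : ℝ)) (a := 1) (b := Y)
      ?_).mono_set Ioc_subset_Icc_self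
    intro y hy
    exact (Real.continuousAt_rpow_const _ _ (Or.inl (by linarith [hy.1]))).continuousWithinAt
  have k1e : ∫ y in Ioc 1 Y, y ^ (-1 : ℝ) = 5 / h * l := by
    have : ∀ y ∈ Ioc 1 Y, y ^ (-1 : ℝ) = y⁻¹ := fun y _ => Real.rpow_neg_one y
    rw [setIntegral_congr_fun measurableSet_Ioc this,
      ← intervalIntegral.integral_of_le hY1, integral_inv_of_pos one_pos hY0, div_one, hlogY]
  have k2 : IntegrableOn (fun y : ℝ => y ^ (-1 - h)) (Ioi Y) :=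
    integrableOn_Ioi_rpow_of_lt (by linarith) hY0
  have k2e : ∫ y in Ioi Y, y ^ (-1 - h) = X ^ (-5 : ℝ) / h := by
    rw [integral_Ioi_rpow_of_lt (by linarith) hY0]
    have : -1 - h + 1 = -h := by ring
    rw [this, hYh]
    field_simp
  have s1 : Ioc 1 Y ⊆ Ioi (1 : ℝ) := Ioc_subset_Ioi_self
  have s2 : Ioi Y ⊆ Ioi (1 : ℝ) := Ioi_subset_Ioi hY1
  have m1 := ((i1.mono_set s1).const_mul (l ^ (2 - p))).add (k1.const_mul (l ^ (-p)))
  have m2 := ((i2.mono_set s2).const_mul (X ^ (-5 : ℝ))).add k2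
  have j1 : IntegrableOn (fun y : ℝ => ‖u y‖ ^ p * y ^ (-(p * (1 / 2)) - 1)) (Ioc 1 Y) := by
    refine Integrable.mono' m1 hmg.aestronglyMeasurable ?_
    filter_upwards [ae_restrict_mem measurableSet_Ioc] with y hy
    rw [Real.norm_eq_abs, abs_of_nonneg (hn y (lt_trans one_pos hy.1))]
    exact hb1 y hy
  have j2 : IntegrableOn (fun y : ℝ => ‖u y‖ ^ p * y ^ (-(p * (1 / 2)) - 1)) (Ioi Y) := by
    refine Integrable.mono' m2 hmg.aestronglyMeasurable ?_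
    filter_upwards [ae_restrict_mem measurableSet_Ioi] with y hy
    rw [Real.norm_eq_abs, abs_of_nonneg (hn y (lt_of_lt_of_le one_pos (hY1.trans (le_of_lt hy))))]
    exact hb2 y hy
  have hun : Ioc 1 Y ∪ Ioi Y = Ioi (1 : ℝ) := Ioc_union_Ioi_eq_Ioi hY1
  refine ⟨by rw [← hun]; exact j1.union j2, ?_⟩
  have hn1' : ∀ y ∈ Ioi (1 : ℝ), 0 ≤ ‖u y‖ ^ (2 : ℝ) * y ^ (-2 : ℝ) := fun y hy => by
    have : (0 : ℝ) < y := lt_trans one_pos hy
    positivity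
  have hn2' : ∀ y ∈ Ioi (1 : ℝ), 0 ≤ ‖u y‖ ^ (2 : ℝ) * y ^ (-2 + 2 * h) := fun y hy => by
    have : (0 : ℝ) < y := lt_trans one_pos hy
    positivity
  have q1 : ∫ y in Ioc 1 Y, ‖u y‖ ^ (2 : ℝ) * y ^ (-2 : ℝ) ≤ C1 / l := by
    refine (setIntegral_mono_set i1 ?_ s1.eventuallyLE).trans e1
    filter_upwards [ae_restrict_mem measurableSet_Ioi] with y hy
    exact hn1' y hy
  have q2 : ∫ y in Ioi Y, ‖u y‖ ^ (2 : ℝ) * y ^ (-2 + 2 * h) ≤ C2 * X ^ (4 : ℝ) := by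
    refine (setIntegral_mono_set i2 ?_ s2.eventuallyLE).trans e2
    filter_upwards [ae_restrict_mem measurableSet_Ioi] with y hy
    exact hn2' y hy
  have t1 : ∫ y in Ioc 1 Y, ‖u y‖ ^ p * y ^ (-(p * (1 / 2)) - 1) ≤
      (C1 + 5 / h) * l ^ (-(p - 1)) := by
    calc _ ≤ ∫ y in Ioc 1 Y, (l ^ (2 - p) * (‖u y‖ ^ (2 : ℝ) * y ^ (-2 : ℝ)) +
          l ^ (-p) * y ^ (-1 : ℝ)) := setIntegral_mono_on j1 m1 measurableSet_Ioc hb1
      _ = l ^ (2 - p) * (∫ y in Ioc 1 Y, ‖u y‖ ^ (2 : ℝ) * y ^ (-2 : ℝ)) +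
          l ^ (-p) * (5 / h * l) := by
          rw [integral_add ((i1.mono_set s1).const_mul (l ^ (2 - p))) (k1.const_mul (l ^ (-p))),
            integral_const_mul, integral_const_mul, k1e]
      _ ≤ l ^ (2 - p) * (C1 / l) + l ^ (-p) * (5 / h * l) := by
          have := mul_le_mul_of_nonneg_left q1 (Real.rpow_nonneg hl0.le (2 - p))
          linarith
      _ = (C1 + 5 / h) * l ^ (-(p - 1)) := by
          have f1 : l ^ (2 - p) / l = l ^ (-(p - 1)) := by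
            rw [← Real.rpow_sub_one hl0.ne']
            congr 1
            ring
          have f2 : l ^ (-p) * l = l ^ (-(p - 1)) := by
            rw [← Real.rpow_add_one hl0.ne']
            congr 1
            ring
          calc _ = C1 * (l ^ (2 - p) / l) + 5 / h * (l ^ (-p) * l) := by ring
            _ = _ := by rw [f1, f2]; ring
  have hX5 : X ^ (-5 : ℝ) ≤ l ^ (-(p - 1)) ∧ X ^ (-5 : ℝ) * X ^ (4 : ℝ) ≤ l ^ (-(p - 1)) := by
    have f1 : X ^ (-1 : ℝ) ≤ l ^ (-(p - 1)) := by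
      rw [Real.rpow_neg hX0.le, Real.rpow_neg hl0.le, Real.rpow_one]
      refine inv_anti₀ (Real.rpow_pos_of_pos hl0 _) ?_
      have hlX' : l ≤ X := by
        rw [← hlX]
        have := Real.log_le_sub_one_of_pos hX0
        linarith
      rcases le_or_gt l 1 with h1 | h1
      · exact (Real.rpow_le_one hl0.le h1 (by linarith)).trans hX.le
      · calc l ^ (p - 1) ≤ l ^ (1 : ℝ) := Real.rpow_le_rpow_of_exponent_le h1.le (by linarith)
          _ = l := Real.rpow_one l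
          _ ≤ X := hlX'
    constructor
    · exact (Real.rpow_le_rpow_of_exponent_le hX.le (by norm_num)).trans f1
    · rw [← Real.rpow_add hX0]
      norm_num
      norm_num at f1
      exact f1
  have t2 : ∫ y in Ioi Y, ‖u y‖ ^ p * y ^ (-(p * (1 / 2)) - 1) ≤
      (C2 + 1 / h) * l ^ (-(p - 1)) := by
    calc _ ≤ ∫ y in Ioi Y, (X ^ (-5 : ℝ) * (‖u y‖ ^ (2 : ℝ) * y ^ (-2 + 2 * h)) +
          y ^ (-1 - h)) := setIntegral_mono_on j2 m2 measurableSet_Ioi hb2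
      _ = X ^ (-5 : ℝ) * (∫ y in Ioi Y, ‖u y‖ ^ (2 : ℝ) * y ^ (-2 + 2 * h)) +
          X ^ (-5 : ℝ) / h := by
          rw [integral_add ((i2.mono_set s2).const_mul (X ^ (-5 : ℝ))) k2,
            integral_const_mul, k2e]
      _ ≤ X ^ (-5 : ℝ) * (C2 * X ^ (4 : ℝ)) + X ^ (-5 : ℝ) / h := by
          have := mul_le_mul_of_nonneg_left q2 (Real.rpow_nonneg hX0.le (-5 : ℝ))
          linarith
      _ = C2 * (X ^ (-5 : ℝ) * X ^ (4 : ℝ)) + 1 / h * X ^ (-5 : ℝ) := by ring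
      _ ≤ C2 * l ^ (-(p - 1)) + 1 / h * l ^ (-(p - 1)) :=
          add_le_add (mul_le_mul_of_nonneg_left hX5.2 hC2)
            (mul_le_mul_of_nonneg_left hX5.1 (by positivity))
      _ = _ := by ring
  rw [← hun, setIntegral_union (Ioc_disjoint_Ioi le_rfl) measurableSet_Ioi j1 j2]
  calc _ ≤ (C1 + 5 / h) * l ^ (-(p - 1)) + (C2 + 1 / h) * l ^ (-(p - 1)) := add_le_add t1 t2
    _ = _ := by ring

/-- the line to the left of the critical line -/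
theorem left {O : LFn} {N : ℕ} {a : ℕ → ℂ} {σ κ C M : ℝ} (hσ : 1 / 4 ≤ σ) (hκ : κ ≤ 3 / 8)
    (hC : 0 ≤ C) (hM : 0 ≤ M)
    (hb : ∀ t : ℝ, ‖1 - O.L ((σ : ℂ) + t * I) *
      ∑ n ∈ Finset.Icc 1 N, a n * (n : ℂ) ^ (-((σ : ℂ) + t * I))‖ ≤ C * M * (1 + |t|) ^ κ) :
    Integrable (fun t : ℝ => ‖FL O N a ((σ : ℂ) + t * I)‖ ^ (2 : ℝ)) ∧
    ∫ t : ℝ, ‖FL O N a ((σ : ℂ) + t * I)‖ ^ (2 : ℝ) ≤ 64 * C ^ 2 * kap (5 / 4) * M ^ 2 := by
  have hk := (kap_int (p := 5 / 4) (by norm_num)).const_mul (64 * C ^ 2 * M ^ 2)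
  have hpt : ∀ t : ℝ, ‖FL O N a ((σ : ℂ) + t * I)‖ ^ (2 : ℝ) ≤
      64 * C ^ 2 * M ^ 2 * (1 + |t|) ^ (-(5 / 4) : ℝ) := by
    intro t
    have h0 : 0 < 1 + |t| := by positivity
    have h1 := FL_le hσ (hb t)
    have h2 : 8 * (C * M * (1 + |t|) ^ κ) / (1 + |t|) ≤ 8 * C * M * (1 + |t|) ^ (-(5 / 8) : ℝ) := by
      have h3 : (1 + |t|) ^ κ / (1 + |t|) ≤ (1 + |t|) ^ (-(5 / 8) : ℝ) := by
        rw [← Real.rpow_sub_one h0.ne']
        exact Real.rpow_le_rpow_of_exponent_le (by linarith [abs_nonneg t]) (by linarith)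
      calc _ = 8 * C * M * ((1 + |t|) ^ κ / (1 + |t|)) := by ring
        _ ≤ _ := mul_le_mul_of_nonneg_left h3 (by positivity)
    calc ‖FL O N a ((σ : ℂ) + t * I)‖ ^ (2 : ℝ)
        ≤ (8 * C * M * (1 + |t|) ^ (-(5 / 8) : ℝ)) ^ (2 : ℝ) :=
          Real.rpow_le_rpow (norm_nonneg _) (h1.trans h2) (by norm_num)
      _ = _ := by
          rw [Real.mul_rpow (by positivity) (Real.rpow_nonneg h0.le _), ← Real.rpow_mul h0.le]
          have e1 : (8 * C * M) ^ (2 : ℝ) = 64 * C ^ 2 * M ^ 2 := by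
            rw [Real.rpow_two]
            ring
          rw [e1]
          norm_num
  have hi : Integrable (fun t : ℝ => ‖FL O N a ((σ : ℂ) + t * I)‖ ^ (2 : ℝ)) := by
    refine hk.mono' ((FL_cont O N a (by linarith)).norm.measurable.pow_const
      _).aestronglyMeasurable (Eventually.of_forall fun t => ?_)
    rw [Real.norm_eq_abs, abs_of_nonneg (Real.rpow_nonneg (norm_nonneg _) _)]
    exact hpt t
  refine ⟨hi, ?_⟩
  calc _ ≤ ∫ t : ℝ, 64 * C ^ 2 * M ^ 2 * (1 + |t|) ^ (-(5 / 4) : ℝ) := integral_mono hi hk hpt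
    _ = _ := by
      rw [integral_const_mul, ← kap]
      ring

theorem t_CU (hcnt : S_CNT) (hCL : J_CL) (hZG : J_ZG) (hLP : J_LP) : J_CU := by
  intro O hO p hp
  have h22 : (2 : ℝ) / (2 - 1) = 2 := by norm_num
  rcases le_or_gt 2 p with h2p | h2p
  · -- large exponents
    obtain ⟨q, hq⟩ : ∃ q : ℝ, q = p / (p - 1) := ⟨_, rfl⟩
    have hp1 : 0 < p - 1 := by linarith
    have hq1 : 1 < q := by
      rw [hq, lt_div_iff₀ hp1]
      linarith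
    obtain ⟨m, hm⟩ : ∃ m : ℝ, m = max (m0 q) (m0 2) := ⟨_, rfl⟩
    have hmq : m0 q ≤ m := by rw [hm]; exact le_max_left _ _
    have hm2 : m0 2 ≤ m := by rw [hm]; exact le_max_right _ _
    have h16 : 16 ≤ m := (m0_facts hq1 hmq).1
    obtain ⟨h, C, hh0, hh1, hC, H⟩ := hCL O hO m h16
    obtain ⟨C1, hC1, H1⟩ := lineN hZG hcnt O hO hq1 hmq hC
    obtain ⟨C2, hC2, H2⟩ := lineN hZG hcnt O hO (by norm_num : (1 : ℝ) < 2) hm2 hC
    obtain ⟨C3, hC3, H3⟩ := hLP p h2p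
    refine ⟨(C3 * C1 ^ (p - 1)) ^ (1 / p), by positivity, ?_⟩
    intro N hN
    obtain ⟨a, ha1, ha2⟩ := H N hN
    have hN1 : (2 : ℝ) ≤ N := by exact_mod_cast hN
    have hLp : 0 < Real.log N := Real.log_pos (by linarith)
    have ha3 : ∀ t : ℝ, ‖1 - O.L (cl t) * ∑ n ∈ Finset.Icc 1 N, a n * (n : ℂ) ^ (-cl t)‖ ≤
        C * (N : ℝ) ^ (2 : ℝ) * (1 + |t|) ^ (6 / m) := by
      intro t
      have e1 : (cl t).re = 1 / 2 := by
        rw [← cl_eq]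
        simp
      have e2 : (cl t).im = t := by
        rw [← cl_eq]
        simp
      have h1 := ha2 (cl t) (by rw [e1]; linarith) (by rw [e1]; norm_num)
      rw [e2] at h1
      exact h1
    obtain ⟨r1, r2⟩ := H1 N a hN ha1 ha3
    obtain ⟨r3, -⟩ := H2 N a hN ha1 ha3
    rw [hq] at r1 r2
    obtain ⟨r5, r6⟩ := H3 O.toLFn N a (1 / 2) (by norm_num) r3 r1
    refine ⟨a, r5, ?_⟩
    refine nl_le hp (by positivity) hLp (r6.trans ?_)
    have h3 : 0 ≤ ∫ t : ℝ, ‖FL O.toLFn N a (((1 / 2 : ℝ) : ℂ) + t * I)‖ ^ (p / (p - 1)) :=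
      integral_nonneg fun t => Real.rpow_nonneg (norm_nonneg _) _
    calc C3 * (∫ t : ℝ, ‖FL O.toLFn N a (((1 / 2 : ℝ) : ℂ) + t * I)‖ ^ (p / (p - 1))) ^ (p - 1)
        ≤ C3 * (C1 / Real.log N) ^ (p - 1) :=
          mul_le_mul_of_nonneg_left (Real.rpow_le_rpow h3 r2 hp1.le) hC3.le
      _ = _ := by
          rw [Real.div_rpow hC1.le hLp.le, Real.rpow_neg hLp.le]
          ring
  · -- small exponents
    obtain ⟨h, C, hh0, hh1, hC, H⟩ := hCL O hO (m0 2) (m0_facts (by norm_num) le_rfl).1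
    obtain ⟨C2, hC2, H2⟩ := lineN hZG hcnt O hO (by norm_num : (1 : ℝ) < 2) le_rfl hC
    obtain ⟨C3, hC3, H3⟩ := hLP 2 le_rfl
    rw [h22] at H3
    have hm16 : 16 ≤ m0 2 := (m0_facts (by norm_num) le_rfl).1
    have hkn := kap_nonneg (5 / 4)
    obtain ⟨D1, hD1⟩ : ∃ D1 : ℝ, D1 = C3 * C2 := ⟨_, rfl⟩
    obtain ⟨D2, hD2⟩ : ∃ D2 : ℝ, D2 = C3 * (64 * C ^ 2 * kap (5 / 4)) := ⟨_, rfl⟩
    have hD1p : 0 < D1 := by rw [hD1]; positivity
    have hD2p : 0 ≤ D2 := by rw [hD2]; positivity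
    have hKp : 0 < D1 + 5 / h + D2 + 1 / h := by positivity
    refine ⟨(D1 + 5 / h + D2 + 1 / h) ^ (1 / p), by positivity, ?_⟩
    intro N hN
    obtain ⟨a, ha1, ha2⟩ := H N hN
    have hN1 : (2 : ℝ) ≤ N := by exact_mod_cast hN
    have hN0 : (0 : ℝ) < N := by linarith
    have hL : 1 / 2 ≤ Real.log N := by
      have h1 := Real.log_le_log two_pos hN1
      have h2 := Real.log_two_gt_d9
      linarith
    have hLp : 0 < Real.log N := by linarith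
    have ha3 : ∀ t : ℝ, ‖1 - O.L (cl t) * ∑ n ∈ Finset.Icc 1 N, a n * (n : ℂ) ^ (-cl t)‖ ≤
        C * (N : ℝ) ^ (2 : ℝ) * (1 + |t|) ^ (6 / m0 2) := by
      intro t
      have e1 : (cl t).re = 1 / 2 := by
        rw [← cl_eq]
        simp
      have e2 : (cl t).im = t := by
        rw [← cl_eq]
        simp
      have h1 := ha2 (cl t) (by rw [e1]; linarith) (by rw [e1]; norm_num)
      rw [e2] at h1
      exact h1
    obtain ⟨r1, r2⟩ := H2 N a hN ha1 ha3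
    have ha4 : ∀ t : ℝ, ‖1 - O.L (((1 / 2 - h : ℝ) : ℂ) + t * I) *
        ∑ n ∈ Finset.Icc 1 N, a n * (n : ℂ) ^ (-(((1 / 2 - h : ℝ) : ℂ) + t * I))‖ ≤
        C * (N : ℝ) ^ (2 : ℝ) * (1 + |t|) ^ (6 / m0 2) := by
      intro t
      have e1 : (((1 / 2 - h : ℝ) : ℂ) + t * I).re = 1 / 2 - h := by simp
      have e2 : (((1 / 2 - h : ℝ) : ℂ) + t * I).im = t := by simp
      have h1 := ha2 (((1 / 2 - h : ℝ) : ℂ) + t * I) (by rw [e1]) (by rw [e1]; linarith)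
      rw [e2] at h1
      exact h1
    have hκ38 : 6 / m0 2 ≤ 3 / 8 := by
      rw [div_le_div_iff₀ (by linarith) (by norm_num)]
      linarith
    obtain ⟨l1, l2⟩ := left (by linarith) hκ38 hC.le (by positivity) ha4
    obtain ⟨r5, r6⟩ := H3 O.toLFn N a (1 / 2) (by norm_num) r1 r1
    obtain ⟨r7, r8⟩ := H3 O.toLFn N a (1 / 2 - h) (by linarith) l1 l1
    have e21 : (2 : ℝ) - 1 = 1 := by norm_num
    rw [e21, Real.rpow_one] at r6 r8
    have e22 : -((2 : ℝ) * (1 / 2)) - 1 = -2 := by norm_num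
    have e23 : -((2 : ℝ) * (1 / 2 - h)) - 1 = -2 + 2 * h := by ring
    rw [e22] at r5 r6
    rw [e23] at r7 r8
    have g1 : ∫ y in Ioi (1 : ℝ), ‖CC O.toLFn N a y‖ ^ (2 : ℝ) * y ^ (-2 : ℝ) ≤
        D1 / Real.log N := by
      refine r6.trans ?_
      rw [hD1, mul_div_assoc]
      exact mul_le_mul_of_nonneg_left r2 hC3.le
    have g2 : ∫ y in Ioi (1 : ℝ), ‖CC O.toLFn N a y‖ ^ (2 : ℝ) * y ^ (-2 + 2 * h) ≤
        D2 * (N : ℝ) ^ (4 : ℝ) := by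
      refine r8.trans ?_
      have e24 : ((N : ℝ) ^ (2 : ℝ)) ^ 2 = (N : ℝ) ^ (4 : ℝ) := by
        rw [← Real.rpow_natCast, ← Real.rpow_mul hN0.le]
        norm_num
      rw [hD2, mul_assoc C3, ← e24]
      exact mul_le_mul_of_nonneg_left l2 hC3.le
    obtain ⟨w1, w2⟩ := low_p (CC_meas O.toLFn N a) hp h2p.le hh0 hL (by linarith) hD1p.le hD2p rfl
      r5 g1 r7 g2
    exact ⟨a, w1, nl_le hp hKp.le hLp w2⟩

end Pool.Agent.Q275.NL.CU
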